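import Pool.Agent.U376.RL.Cell
import Pool.Agent.N783.PF.Jac
import Pool.Agent.N874.Jac.Def
import Pool.Agent.N844.QF.Hf
import Pool.Agent.N844.QR.Ex

/-!
# The Bloch-Kato conjecture on Abel-Jacobi maps for intersections of two quadrics of every odd dimension, in
# every residue class and near every real shape, over every number field

Let `g ≥ 1`, let `K` be ANY number field with the ring of integers `O`, and let `X ⊂ P^(2g+1)` be a smooth
complete intersection of two quadrics over `K`, of dimension `2 g - 1`, such that a member of the pencil of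
quadrics which contain `X` is rational over `K` and singular. After a change of coordinates `X` is the base
locus of a pencil `x A - z B` of symmetric matrices over `O` with

  `(-1)^(g+1) det (x A - z B) = m² z F(x, z)`, `F(x, 1) = f = x^(2g+1) + a_(2g-1) x^(2g-1) + ... + a_0`,

with `m ≠ 0` and `a_i ∈ O`. By Reid and Donagi `H^(2g-1)(X, ℚ_2(g)) = V_2 J` and
`CH^g(X)_0 ⊗ ℚ_2 = J(K) ⊗ ℚ_2`, where `J` is the Jacobian of `y² = f(x)`. (These facts are not formalized
here; the numbers of points of `X` over finite fields are computed, and by Faltings they determine the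
representation.)

Order ALL the `f` by height: all conjugates of `a_i` are at most `B^(2g+1-i)`. Prescribe a residue class:
`f ≡ p` modulo `N`, where `p` is irreducible modulo the primes over `2` which divide `N`, and the discriminant of
`p` is not divisible by the other primes `𝔭` which divide `N`, or not by `𝔭 ^ 2` if `𝔭 ^ 2` divides `N`; and a
shape at infinity: for given complex numbers `a_(j,σ)`, compatible with complex conjugation, the numbers
`σ(f_j)` are up to `ε t ^ (2 g + 1 - j)` equal to `t ^ (2 g + 1 - j) a_(j,σ)` for some natural number `t`.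

We prove that a positive proportion of ALL the `f` is in this cell and has the following properties:
multiplication by two is bijective on `J(K)` (by the theorem of Mordell and Weil this means that `J(K)` is
finite of odd order), the 2-primary part of the Tate-Shafarevich group of `J` is zero and the Bloch-Kato Selmer
group `H^1_f(K, V_2 J)` is zero. So for all the `X` over `K` which belong to these `f` both sides of the
conjecture are zero and the 2-adic Abel-Jacobi map is an isomorphism. For every `f` there is an `X` with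
`m = 1` which contains a linear subspace of dimension `g - 1` defined over `K`.

The group `J(L)` is the Picard group of `L[x, y] / (y² - f)` (library `N874/Jac/Def.lean`). The elements of
`V_2 J` are the sequences of the points `x_n` of 2-power order over the separable closure with
`x_(n+1)² = x_n` (`J` is written multiplicatively). For all finite places `v` the local subgroup
`H^1_f(K_v, V_2 J)` is the image of `J(K_v) ⊗ ℚ_2` (Bloch and Kato, Example 3.11), which is the definition
here.

The starting result `MP_787500_nt/AllQuadricPencils` is the case without residue class and shape; the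
definitions and the deduction from the 2-Selmer group are taken from it (libraries `N844/QF`, `N844/QR` of
helper844, `N783/PF/Jac`, `N874/Jac`). New is that the `f` with trivial 2-Selmer group are of
positive proportion in every cell: project PF of helper783 and coauthors is redone for the lattice points of
a cell (`U376/RF`, `U376/RL`): the set of polynomials near the multiples of a shape is an open subset of the
box, twists by natural numbers congruent to 1 modulo `N` do not leave the cell.
-/

set_option autoImplicit false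
set_option linter.all false

open Finset Matrix Polynomial IsDedekindDomain NumberField
open scoped LinearAlgebra.Projectivization

namespace Pool.Agent.Results.MP_009fd8_ag.BlochKatoInEveryCell

open Pool.Agent.N874.Jac (J mapJ Gal IsCocycle UniquelyTwoDivisible ShaTwoTrivialReal)

/-! ### The Bloch-Kato Selmer group of `V_2 J` -/

section basic

variable {K : Type} [Field K] (F : K[X]) {Ω : Type} [Field Ω] [Algebra K Ω]

/-- The elements of `V_2 J`, `J` the Jacobian of `y ^ 2 = F(x)` (written multiplicatively), `Ω` a separable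
closure of `K`: the sequences of points `x_n ∈ J(Ω)` of 2-power order with `x_(n + 1) ^ 2 = x_n`. -/
def IsV (x : ℕ → J F Ω) : Prop := ∀ n, x (n + 1) ^ 2 = x n ∧ ∃ m : ℕ, x n ^ 2 ^ m = 1

/-- the continuous cocycles with values in `V_2 J` -/
def VCocycleIn (c : (Ω ≃ₐ[K] Ω) → ℕ → J F Ω) : Prop :=
  (∀ σ, IsV F (c σ)) ∧ ∀ n, IsCocycle F fun σ => c σ n

/-- the coboundaries with values in `V_2 J` -/
def VCoboundaryIn (c : (Ω ≃ₐ[K] Ω) → ℕ → J F Ω) : Prop :=
  ∃ x : ℕ → J F Ω, IsV F x ∧ ∀ σ n, c σ n = mapJ F σ.toAlgHom (x n) / x n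

variable (E : Type) {Ω' : Type} [Field E] [Field Ω'] [Algebra E Ω'] [Algebra K E] [Algebra K Ω']
  [IsScalarTower K E Ω']

/-- For an embedding `ι : Ω → Ω'` and a point `Q ∈ J(Ω')` the restriction of the cocycle `c` with values in
`J(Ω)` to the automorphisms of `Ω'` over `E` is `τ ↦ τ Q / Q`. -/
def Restricts (ι : Ω →ₐ[K] Ω') (Q : J F Ω') (c : (Ω ≃ₐ[K] Ω) → J F Ω) : Prop :=
  ∀ (τ : Ω' ≃ₐ[E] Ω') (σ : Ω ≃ₐ[K] Ω), (∀ x, τ (ι x) = ι (σ x)) →
    mapJ F ι (c σ) = mapJ F (τ.toAlgHom.restrictScalars K) Q / Q

variable (Ω')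

/-- The restriction of the class of `c` to `E` is in the image of `J(E) ⊗ ℚ_2 → H ^ 1 (E, V_2 J)`, `Ω'` a
separable closure of `E`: there are an embedding `Ω → Ω'` and points `Q_n ∈ J(Ω')` with
`Q_(n + 1) ^ 2 = Q_n` and `c(τ)_n = τ Q_n / Q_n` for all automorphisms `τ` of `Ω'` over `E`. -/
def KummerIn (c : (Ω ≃ₐ[K] Ω) → ℕ → J F Ω) : Prop :=
  ∃ (ι : Ω →ₐ[K] Ω') (Q : ℕ → J F Ω'), (∀ n, Q (n + 1) ^ 2 = Q n) ∧
    ∀ n, Restricts F E ι (Q n) fun σ => c σ n

end basic

section selmer

variable {K : Type} [Field K] (F : K[X])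

/-- sequences of functions on the absolute Galois group of `K` with values in `J(K^sep)` -/
abbrev VCochain : Type := Gal K → ℕ → J F (SeparableClosure K)

variable {F}

/-- the continuous cocycles on the absolute Galois group with values in `V_2 J` -/
def VCocycle (c : VCochain F) : Prop := VCocycleIn F c

/-- the coboundaries with values in `V_2 J` -/
def VCoboundary (c : VCochain F) : Prop := VCoboundaryIn F c

/-- the restriction of the class of `c` to `E` is in the image of `J(E) ⊗ ℚ_2` -/
def Kummer (E : Type) [Field E] [Algebra K E] (c : VCochain F) : Prop :=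
  KummerIn F E (SeparableClosure E) c

/-- the class of `c` is in the image of `J(K_v) ⊗ ℚ_2` for the completions `K_v` of `K` at all maximal
ideals `v` of the Dedekind ring `R` with field of fractions `K` -/
def KummerAtPrimes (R : Type) [CommRing R] [IsDedekindDomain R] [Algebra R K] [IsFractionRing R K]
    (c : VCochain F) : Prop := ∀ v : HeightOneSpectrum R, Kummer (v.adicCompletion K) c

variable (F)

/-- For a number field `K` with the ring of integers `R`: the Bloch-Kato Selmer group
`H ^ 1_f (K, V_2 J)` is zero, `J` the Jacobian of `y ^ 2 = F(x)`. Every continuous cocycle with values in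
`V_2 J` whose class is in the image of `J(K_v) ⊗ ℚ_2` at all finite places `v` is a coboundary. -/
def SelmerZero (R : Type) [CommRing R] [IsDedekindDomain R] [Algebra R K] [IsFractionRing R K] :
    Prop := ∀ c : VCochain F, VCocycle c → KummerAtPrimes R c → VCoboundary c

end selmer

/-! ### The polynomials `f` -/

section numberfield

variable (F : Type) [Field F] [NumberField F] (g B : ℕ)

/-- `f` is monic of degree `2 g + 1` without term of degree `2 g`, and all the conjugates of the coefficient
of `x ^ j` are at most `B ^ (2 g + 1 - j)` in absolute value. -/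
structure IsPoly (f : (𝓞 F)[X]) : Prop where
  monic : f.Monic
  degree : f.natDegree = 2 * g + 1
  trace : f.coeff (2 * g) = 0
  height : ∀ j ≤ 2 * g, ∀ σ : F →+* ℂ, ‖σ (f.coeff j : F)‖ ≤ (B : ℝ) ^ (2 * g + 1 - j)

/-- all the polynomials `f` of height at most `B` -/
def Polys : Set (𝓞 F)[X] := {f | IsPoly F g B f}

/-- there is no prime `P` such that `P ^ (2 (2 g + 1 - j))` divides the coefficient of `x ^ j` for all
`j ≤ 2 g` -/
def Minimal (f : (𝓞 F)[X]) : Prop :=
  ∀ P : Ideal (𝓞 F), P.IsPrime → P ≠ ⊥ → ¬ ∀ j ≤ 2 * g, f.coeff j ∈ P ^ (2 * (2 * g + 1 - j))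

/-- the polynomial `f` over `F` -/
noncomputable def polyF (f : (𝓞 F)[X]) : F[X] := f.map (algebraMap (𝓞 F) F)

/-- The condition on the residue class of `p` modulo `N` at the primes which contain `N`. -/
def Admissible (N : ℕ) (p : (𝓞 F)[X]) : Prop :=
  ∀ 𝔭 : Ideal (𝓞 F), 𝔭.IsPrime → 𝔭 ≠ ⊥ → (N : 𝓞 F) ∈ 𝔭 →
    ((2 : 𝓞 F) ∈ 𝔭 → Irreducible (p.map (Ideal.Quotient.mk 𝔭))) ∧
    ((2 : 𝓞 F) ∉ 𝔭 → p.discr ∉ 𝔭 ∨ ((N : 𝓞 F) ∈ 𝔭 ^ 2 ∧ p.discr ∉ 𝔭 ^ 2))

/-- a shape: complex numbers `a j σ`, compatible with complex conjugation -/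
def IsShape (a : Fin (2 * g) → (F →+* ℂ) → ℂ) : Prop :=
  ∀ j σ, a j (ComplexEmbedding.conjugate σ) = (starRingEnd ℂ) (a j σ)

/-- The cell: `f` is congruent to `p` modulo `N`, and for some natural number `t > 0` the coefficients of
`f` are near to `t ^ (2 g + 1 - j) a_j` at all embeddings. -/
def InCell (N : ℕ) (p : (𝓞 F)[X]) (a : Fin (2 * g) → (F →+* ℂ) → ℂ) (ε : ℝ) (f : (𝓞 F)[X]) : Prop :=
  (∀ j, (N : 𝓞 F) ∣ f.coeff j - p.coeff j) ∧
    ∃ t : ℕ, 0 < t ∧ ∀ (j : Fin (2 * g)) (σ : F →+* ℂ),
      ‖σ (f.coeff (j : ℕ) : F) - (t : ℂ) ^ (2 * g + 1 - (j : ℕ)) * a j σ‖ ≤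
        ε * (t : ℝ) ^ (2 * g + 1 - (j : ℕ))

/-- The polynomials `f` of height at most `B` in the cell which are minimal, irreducible over `F` and such
that `P ↦ P ^ 2` is bijective on `J(F)`, `J` the Jacobian of `y ^ 2 = f(x)`, the 2-primary part of the
Tate-Shafarevich group of `J` over `F` is zero and `H ^ 1_f (F, V_2 J) = 0`. -/
def Good (N : ℕ) (p : (𝓞 F)[X]) (a : Fin (2 * g) → (F →+* ℂ) → ℂ) (ε : ℝ) : Set (𝓞 F)[X] :=
  {f ∈ Polys F g B | InCell F g N p a ε f ∧ Minimal F g f ∧ Irreducible (polyF F f) ∧
    UniquelyTwoDivisible (polyF F f) ∧ ShaTwoTrivialReal (polyF F f) (𝓞 F) ∧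
    SelmerZero (polyF F f) (𝓞 F)}

/-- a positive proportion of all the polynomials ordered by height is in the cell and good -/
def PositiveProportion (N : ℕ) (p : (𝓞 F)[X]) (a : Fin (2 * g) → (F →+* ℂ) → ℂ) (ε : ℝ) : Prop :=
  ∃ c : ℝ, 0 < c ∧ ∃ B₀ : ℕ, ∀ B ≥ B₀, (Polys F g B).Finite ∧ 0 < (Polys F g B).ncard ∧
    c * ((Polys F g B).ncard : ℝ) ≤ ((Good F g B N p a ε).ncard : ℝ)

end numberfield

/-! ### The intersections of two quadrics -/

section pencils

variable {D : Type} [CommRing D]

/-- the homogeneous form `F(x, z)` of degree `2 g + 1` of `f` -/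
def form (g : ℕ) (f : D[X]) (x z : D) : D :=
  ∑ i ∈ range (2 * g + 2), f.coeff i * x ^ i * z ^ (2 * g + 1 - i)

/-- the matrices of size `2 g + 2` over `D` -/
abbrev Mat (g : ℕ) (D : Type) : Type := Matrix (Fin (2 * g + 2)) (Fin (2 * g + 2)) D

/-- the quadratic form of a matrix -/
def qf {N : ℕ} (A : Matrix (Fin N) (Fin N) D) (y : Fin N → D) : D := y ⬝ᵥ (A *ᵥ y)

/-- the pencils over `D` with discriminant `m ^ 2 z F(x, z)` -/
structure IsPencil (g : ℕ) (f : D[X]) (m : D) (A B : Mat g D) : Prop where
  symA : A.IsSymm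
  symB : B.IsSymm
  disc : ∀ x z : D, (-1) ^ (g + 1) * (x • A - z • B).det = m ^ 2 * (z * form g f x z)

/-- the linear subspace `y_g = ... = y_(2 g + 1) = 0` of dimension `g - 1` is contained in the base locus -/
def ContainsPlane {g : ℕ} (A B : Mat g D) : Prop :=
  ∀ y : Fin (2 * g + 2) → D, (∀ i : Fin (2 * g + 2), g ≤ (i : ℕ) → y i = 0) →
    qf A y = 0 ∧ qf B y = 0

end pencils

section fields

variable {E : Type} [Field E]

/-- the quadratic forms of `A` and `B` are zero at `y` -/
def OnX {N : ℕ} (A B : Matrix (Fin N) (Fin N) E) (y : Fin N → E) : Prop := qf A y = 0 ∧ qf B y = 0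

/-- the base locus `X` of the pencil is smooth (Jacobian criterion at the points over `E`) -/
def Smooth {N : ℕ} (A B : Matrix (Fin N) (Fin N) E) : Prop :=
  ∀ y : Fin N → E, y ≠ 0 → OnX A B y → LinearIndependent E ![A *ᵥ y, B *ᵥ y]

/-- the number of the points over `E` of the base locus `X` of the pencil -/
noncomputable def numP {N : ℕ} (A B : Matrix (Fin N) (Fin N) E) : ℕ :=
  Nat.card {P : ℙ E (Fin N → E) // OnX A B P.rep}

/-- the number of the points over `E` of the affine curve `y ^ 2 = F(x)` -/
noncomputable def numC (F : E[X]) : ℕ := Nat.card {P : E × E // P.2 ^ 2 = F.eval P.1}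

/-- The number of points of `X` over the finite field `E`: `H ^ (2 g - 1) (X) = H ^ 1 (C) (1 - g)` where `C`
is the curve `y ^ 2 = F(x)`, and the other cohomology is that of a projective space of dimension
`2 g - 1`. -/
def PointCount {g : ℕ} (F : E[X]) (A B : Mat g E) : Prop :=
  (numP A B : ℤ) = ∑ i ∈ range (2 * g), (Nat.card E : ℤ) ^ i +
    (Nat.card E : ℤ) ^ (g - 1) * ((numC F : ℤ) - Nat.card E)

end fields

/-- For all pencils over the ring `D` with discriminant `m ^ 2 z F(x, z)` the base locus is smooth over all the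
fields `E` over `D` in which `2 m` is not zero and `f` is separable, and its number of points is given by
`PointCount` if `E` is finite. -/
def AllPencils {D : Type} [CommRing D] (g : ℕ) (f : D[X]) : Prop :=
  ∀ (m : D) (A B : Mat g D), IsPencil g f m A B →
    ∀ (E : Type) [Field E] (φ : D →+* E), (2 : E) ≠ 0 → φ m ≠ 0 → (f.map φ).Separable →
      Smooth (A.map φ) (B.map φ) ∧ (Finite E → PointCount (f.map φ) (A.map φ) (B.map φ))

section proof

variable (F : Type) [Field F] [NumberField F] {g : ℕ}

theorem ht_iff (B : ℕ) (f : (𝓞 F)[X]) : IsPoly F g B f ↔ Pool.Agent.N783.PF.Ht g B f :=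
  ⟨fun h => ⟨h.monic, h.degree, h.trace, h.height⟩, fun h => ⟨h.mon, h.deg, h.tr, h.ht⟩⟩

/-- from the explicit 2-Selmer group to the statements -/
theorem good_of {B N : ℕ} {p : (𝓞 F)[X]} {a : Fin (2 * g) → (F →+* ℂ) → ℂ} {ε : ℝ} {f : (𝓞 F)[X]}
    (h : IsPoly F g B f) (hc0 : InCell F g N p a ε f) (hi : Irreducible (polyF F f))
    (hs : Pool.Agent.N783.PF.SelZero f) (hm : Minimal F g f) : f ∈ Good F g B N p a ε := by
  have ho : Odd f.natDegree := by
    rw [h.degree]
    exact odd_two_mul_add_one g
  obtain ⟨h6, h7⟩ := Pool.Agent.N783.PF.jac h.monic ho hi hs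
  refine ⟨h, hc0, hm, hi, h6, h7, fun c hc hl => ?_⟩
  have hm' : (polyF F f).Monic := h.monic.map _
  have ho' : Odd (polyF F f).natDegree := by
    unfold polyF
    rw [h.monic.natDegree_map]
    exact ho
  exact Pool.Agent.N844.QF.h1f_zero (F := polyF F f) two_ne_zero hm' hi.separable ho' (𝓞 F) h6 h7 c
    (fun n => (hc.2 n).1) hc.1 (fun σ τ n => (hc.2 n).2 σ τ) (fun v n => by
      obtain ⟨ι, Q, -, hQ⟩ := hl v
      exact ⟨ι, Q n, hQ n⟩)

end proof

/-- **Theorem.** For every number field `F`, `g ≥ 1`, every admissible residue class of polynomials of degree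
`2 g + 1` without term of degree `2 g` and every shape at infinity there is a positive constant `c` such that
for all large `B` at least `c` times the number of ALL the `f` of height at most `B` are in this cell, minimal
and irreducible over `F` and the Jacobian `J` of `y ^ 2 = f(x)` is such that multiplication by two is bijective
on `J(F)`, the 2-primary part of the Tate-Shafarevich group of `J` over `F` is zero and the Bloch-Kato Selmer
group `H ^ 1_f (F, V_2 J)` is zero. For every `f` and all pencils of quadrics over the ring of integers `𝓞 F`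
with discriminant `m ^ 2 z F(x, z)` the base locus `X` is smooth over all the fields `E` over `𝓞 F` in which
`2 m` is not zero and `f` is separable, and its number of points is computed if `E` is finite. For every `f`
there is a pencil with `m = 1` whose base locus contains a linear subspace of dimension `g - 1`. -/
theorem result (g : ℕ) (hg : 1 ≤ g) (F : Type) [Field F] [NumberField F] :
    (∀ N : ℕ, 0 < N → ∀ p : (𝓞 F)[X], p.Monic → p.natDegree = 2 * g + 1 → p.coeff (2 * g) = 0 →
      Admissible F N p → ∀ a : Fin (2 * g) → (F →+* ℂ) → ℂ, IsShape F g a → ∀ ε : ℝ, 0 < ε →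
      PositiveProportion F g N p a ε) ∧
    ∀ f : (𝓞 F)[X], f.Monic → f.natDegree = 2 * g + 1 →
      AllPencils g f ∧ ∃ A B : Mat g (𝓞 F), IsPencil g f 1 A B ∧ ContainsPlane A B := by
  classical
  haveI : Infinite (𝓞 F) := CharZero.infinite _
  refine ⟨?_, ?_⟩
  · intro N hN p hpm hpd hpt hp a ha ε hε
    obtain ⟨c, hc, B₀, hB₀⟩ := Pool.Agent.U376.RL.mainCell F g hg N hN p hpm hpd hpt
      (fun 𝔭 h1 h2 h3 h4 => (hp 𝔭 h1 h2 h3).1 h4)
      (fun 𝔭 h1 h2 h3 h4 => (hp 𝔭 h1 h2 h3).2 h4) a ha hε
    refine ⟨c, hc, B₀, fun B hB => ?_⟩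
    obtain ⟨hHt, hle⟩ := hB₀ B hB
    have e1 : Polys F g B = {f : (𝓞 F)[X] | Pool.Agent.N783.PF.Ht g B f} :=
      Set.ext fun f => ht_iff F B f
    have hfin : (Polys F g B).Finite := by rw [e1]; exact hHt
    refine ⟨hfin, ?_, ?_⟩
    · rw [Set.ncard_pos hfin]
      refine ⟨X ^ (2 * g + 1), monic_X_pow _, natDegree_X_pow _, ?_, fun j hj σ => ?_⟩
      · rw [coeff_X_pow, if_neg (by omega)]
      · rw [coeff_X_pow, if_neg (by omega)]
        rw [show ((0 : 𝓞 F) : F) = 0 from rfl, map_zero, norm_zero]
        positivity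
    · rw [e1]
      refine hle.trans ?_
      have h3 : {f : (𝓞 F)[X] | Pool.Agent.N783.PF.Ht g B f ∧
          Irreducible (Pool.Agent.N783.PF.fF f) ∧ Pool.Agent.N783.PF.SelZero f ∧
          Pool.Agent.N783.PF.Min g f ∧ (∀ j, (N : 𝓞 F) ∣ f.coeff j - p.coeff j) ∧
          Pool.Agent.U376.RL.NearA g a ε f} ⊆ Good F g B N p a ε := by
        rintro f ⟨h4, h5, h6, h7, h8, h9⟩
        exact good_of F ((ht_iff F B f).2 h4) ⟨h8, h9⟩ h5 h6 h7
      exact_mod_cast Set.ncard_le_ncard h3 (hfin.subset fun a ha => ha.1)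
  · intro f hf hd
    refine ⟨fun m A B h E _ φ hE hm hs => ?_, ?_⟩
    · have h' : Pool.Agent.N844.QR.IsPen g f m A B := ⟨h.symA, h.symB, h.disc⟩
      exact ⟨fun y hy h6 => h'.smooth φ hf hd hm hs hy h6.1 h6.2,
        fun _ => h'.num hg hf hd E φ hE hm hs⟩
    · have h' := Pool.Agent.N844.QR.ex_pen hf hd
      refine ⟨Pool.Agent.N844.QR.eA hf hd, Pool.Agent.N844.QR.eB hf hd,
        ⟨h'.symA, h'.symB, h'.disc⟩, fun y hy => ?_⟩
      have key : ∀ A : Mat g (𝓞 F),
          (∀ i j : Fin (2 * g + 2), (i : ℕ) < g → (j : ℕ) < g → A i j = 0) → qf A y = 0 := by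
        intro A hA
        unfold qf
        simp only [dotProduct, mulVec]
        refine Finset.sum_eq_zero fun i _ => ?_
        rcases Nat.lt_or_ge (i : ℕ) g with hi | hi
        · rw [Finset.sum_eq_zero, mul_zero]
          intro j _
          rcases Nat.lt_or_ge (j : ℕ) g with hj | hj
          · rw [hA i j hi hj, zero_mul]
          · rw [hy j hj, mul_zero]
        · rw [hy i hi, zero_mul]
      exact ⟨key _ fun i j hi hj => (Pool.Agent.N844.QR.e_zero hf hd i j hi hj).1,
        key _ fun i j hi hj => (Pool.Agent.N844.QR.e_zero hf hd i j hi hj).2⟩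

end Pool.Agent.Results.MP_009fd8_ag.BlochKatoInEveryCell
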