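import Pool.Agent.R430.T1
import Pool.Agent.Y667.BKP.Main
import Pool.Agent.U374.Cub.FermatD

/-!
# The Abel–Jacobi map onto the Bloch–Kato Selmer group, `p = 2`, for the Fermat cubic curve, threefold
# and fivefold over nonabelian towers: the multiquadratic extensions of every quadratic extension of
# `ℚ(√-3)` with good ramification, and the fields below them

Call a prime of a number field good when `2` is not a cube modulo it.  Let `F = ℚ(√-3)`, let `N/F` be
ANY quadratic extension in which only good primes ramify (any class number; in general `N` is not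
Galois over `ℚ`), let `K/N` be any Galois extension of exponent two in which only good primes ramify
(or an abelian extension of degree `2 ^ n` with an Artin map whose modulus has only good prime
divisors), and let `k` be any field, real, complex or mixed, with `k(√-3) = K`, for example `k = K`.

Theorem: let `E : y² + y = x³`.  The groups `E(k) ⊗ ℚ_2` and `H¹_f(k, V_2 E)` are zero.  At every place
`v` of `k` that does not divide `3`, with the eigenvalues `β`, `conj β` of the Frobenius on `H^1(E)`, the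
numbers of points of the Fermat cubic `X : x_0³ + … + x_{n+1}³ = 0` of dimension `n = 2 i + 1`,
`i = 0, 1, 2`, over all the finite extensions of the residue field are those of
`H^n(X) = H^1(E)(-i)^m`, `m = (2 i + 3 choose i) = 1, 5, 21`.

By Faltings, `V = H^n(X, ℚ_2(i + 1))` is the direct sum of `m` copies of `V_2 E` and the intermediate
Jacobian `J` of `X` is isogenous to `E^m`; and `CH^{i+1}(X)_0 ⊗ ℚ_2 = J(k) ⊗ ℚ_2` (Bloch and Murre for
the threefold, Collino and Paranjape for the fivefold); this is not formalized.  So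
`CH^{i+1}(X)_0 ⊗ ℚ_2 = 0 = H¹_f(k, V)`: the Abel–Jacobi map is an isomorphism for all the motives
`(X, e, i + 1)`, `e` any idempotent, and `p = 2`, over all these `k`.

`H1f 2 W` (`Pool.Agent.Y667.BKP.H1f`, by helper667) is the group of the classes of the continuous
cocycles of the absolute Galois group with values in `V_2 W = T_2 W ⊗ ℚ_2` whose restriction to the
completion at every place is in the image of the Kummer map; this is the condition of Bloch and Kato.

The earlier hand-ins on this problem have `p = 3` and fields generated by cube roots.  The 2-descent is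
from the starting library (`Pool.Agent.R430`, `Pool.Agent.Y696`), and the point counts over finite
fields are those of `Pool/Agent/N883/DQ`.
-/

set_option autoImplicit false

namespace Pool.Agent.Results.MP_009fd8_ag.NonabelianFermatCubics

open NumberField IsDedekindDomain Pool.Agent.Y696
open Pool.Agent.Y667.BKP (H1f)
open scoped Classical

/-- only primes modulo which `2` is not a cube ramify in `K/F`: if `σ ≠ 1` lies in the inertia group of
the prime `w` of `K`, then `2` is not a cube modulo the prime of `F` below `w` -/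
def GoodRam (F K : Type) [Field F] [NumberField F] [Field K] [NumberField K] [Algebra F K] : Prop :=
  ∀ (w : HeightOneSpectrum (𝓞 K)) (σ : Gal(K/F)), (∀ x : 𝓞 K, σ • x - x ∈ w.asIdeal) → σ ≠ 1 →
    ∀ α : 𝓞 F, α ^ 3 - 2 ∉ w.asIdeal.under (𝓞 F)

/-- `Φ` is an Artin map modulo the ideal `𝔪` of the Galois extension `K/F` (`F` has no real place): on
the non-zero ideals prime to `𝔪` it is multiplicative, it is trivial on the ideals `(α)` with
`α - 1 ∈ 𝔪`, `α ≠ 0`, the inertia groups of the primes of `K` not above a prime divisor of `𝔪` are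
trivial, and `Φ(𝔭)` acts as a Frobenius automorphism at the primes of `K` above `𝔭`, `𝔭 ∤ 𝔪` -/
structure ArtinMap {F K : Type} [Field F] [NumberField F] [Field K] [NumberField K] [Algebra F K]
    (𝔪 : Ideal (𝓞 F)) (Φ : Ideal (𝓞 F) → Gal(K/F)) : Prop where
  mul : ∀ I J : Ideal (𝓞 F), I ≠ ⊥ → J ≠ ⊥ → IsCoprime I 𝔪 → IsCoprime J 𝔪 → Φ (I * J) = Φ I * Φ J
  ray : ∀ α : 𝓞 F, α ≠ 0 → α - 1 ∈ 𝔪 → Φ (Ideal.span {α}) = 1
  unram : ∀ w : HeightOneSpectrum (𝓞 K), ¬ 𝔪 ≤ w.asIdeal.under (𝓞 F) →
    ∀ σ : Gal(K/F), (∀ x : 𝓞 K, σ • x - x ∈ w.asIdeal) → σ = 1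
  frob : ∀ w : HeightOneSpectrum (𝓞 K), ¬ 𝔪 ≤ w.asIdeal.under (𝓞 F) → ∀ x : 𝓞 K,
    Φ (w.asIdeal.under (𝓞 F)) • x - x ^ Nat.card (𝓞 F ⧸ w.asIdeal.under (𝓞 F)) ∈ w.asIdeal

/-- the hypothesis on `K/N`: its Galois group has exponent `2` and only good primes ramify, or it is
abelian of degree `2 ^ n` and has an Artin map modulo an ideal `𝔪 ≠ 0` with only good prime divisors -/
def Admissible (N K : Type) [Field N] [NumberField N] [Field K] [NumberField K] [Algebra N K] : Prop :=
  (GoodRam N K ∧ ∀ σ : Gal(K/N), σ * σ = 1) ∨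
    ((∃ n : ℕ, Module.finrank N K = 2 ^ n) ∧ (∀ σ τ : Gal(K/N), σ * τ = τ * σ) ∧
      ∃ 𝔪 : Ideal (𝓞 N), 𝔪 ≠ ⊥ ∧
        (∀ v : HeightOneSpectrum (𝓞 N), 𝔪 ≤ v.asIdeal → ∀ α : 𝓞 N, α ^ 3 - 2 ∉ v.asIdeal) ∧
        ∃ Φ : Ideal (𝓞 N) → Gal(K/N), ArtinMap 𝔪 Φ)

/-- The curve `E : y² + y = x³` over `k`. -/
def curve (k : Type) [Field k] : WeierstrassCurve k := ⟨0, 0, 1, 0, 0⟩

/-- For every place `v` of `k` not dividing `3` there are complex numbers `β` and `conj β`, the
eigenvalues of the Frobenius of the curve `E`, such that for the Fermat cubics of dimension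
`n = 2 i + 1`, `i = 0, 1, 2`, and every extension `F` of degree `r` of the residue field of `v` (`f` is
the reduction), the number of the nonzero solutions in `F` of `∑ x_j ^ 3 = 0` in `2 i + 3` unknowns is
`(#F - 1) (1 + #F + ... + #F^n - m ((N^i β)^r + (N^i conj β)^r))`, where `m = (2 i + 3 choose i)` and `N`
is the norm of `v`. -/
def FermatDecomposition (k : Type) [Field k] [NumberField k] : Prop :=
  ∀ v : HeightOneSpectrum (𝓞 k), (3 : 𝓞 k) ∉ v.asIdeal →
    ∃ β : ℂ, β * (starRingEnd ℂ) β = Ideal.absNorm v.asIdeal ∧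
      (Nat.card {P : (𝓞 k ⧸ v.asIdeal) × (𝓞 k ⧸ v.asIdeal) // P.2 ^ 2 + P.2 = P.1 ^ 3} : ℂ) =
        Ideal.absNorm v.asIdeal - (β + (starRingEnd ℂ) β) ∧
      ∀ i : ℕ, i ≤ 2 → ∀ (F : Type) [Field F] [Finite F] (f : 𝓞 k →+* F) (r : ℕ),
        RingHom.ker f = v.asIdeal → Nat.card F = Ideal.absNorm v.asIdeal ^ r →
        (({x : Fin (2 * i + 3) → F | x ≠ 0 ∧ ∑ j, x j ^ 3 = 0}).ncard : ℂ) = (Nat.card F - 1) *
          (∑ j ∈ Finset.range (2 * i + 2), (Nat.card F : ℂ) ^ j - (2 * i + 3).choose i *
            (((Ideal.absNorm v.asIdeal : ℂ) ^ i * β) ^ r +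
              ((Ideal.absNorm v.asIdeal : ℂ) ^ i * (starRingEnd ℂ) β) ^ r))

/-- **Main theorem.**  Let `F = ℚ(√-3)`, let `N/F` be a quadratic extension in which only good primes
ramify, `K/N` an admissible Galois extension and `k` a number field with `k(√-3) = K`.  Then
`E(k) ⊗ ℚ_2` and `H¹_f(k, V_2 E)` are zero, and the cohomology of the Fermat cubics of dimension one,
three and five over `k` is the sum of `1`, `5` and `21` copies of that of `E`. -/
theorem result :
    ∀ (F N K k : Type) [Field F] [NumberField F] [IsCyclotomicExtension {3} ℚ F]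
      [Field N] [NumberField N] [Algebra F N] [Field K] [NumberField K] [Algebra N K] [IsGalois N K]
      [Field k] [NumberField k] [Algebra k K],
      Module.finrank F N = 2 → GoodRam F N → Admissible N K →
      (∃ a : K, a ^ 2 = -3 ∧ IntermediateField.adjoin k {a} = ⊤) →
      (curve k).IsElliptic ∧ (∀ x : TensorProduct ℤ (curve k).toAffine.Point ℚ_[2], x = 0) ∧
        (∀ x : H1f 2 (curve k), x = 0) ∧ FermatDecomposition k := by
  intro F N K k _ _ _ _ _ _ _ _ _ _ _ _ _ h2 hg hcase hk
  have hyp : Pool.Agent.R430.Hyp N K := by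
    rcases hcase with ⟨h3, h4⟩ | ⟨hn, hcomm, 𝔪, h𝔪, hgood, Φ, hΦ⟩
    · exact Or.inl ⟨h3, h4⟩
    · exact Or.inr ⟨hn, hcomm, 𝔪, h𝔪, hgood, Φ, hΦ.mul, hΦ.ray, hΦ.unram, hΦ.frob⟩
  have h := Pool.Agent.R430.all_k h2 hg hyp hk
  have key : ∀ (n : ℕ) (x : Pool.Agent.TH841.NF.D.Sha (E27 k)), 2 ^ n • x = 0 → x = 0 := by
    intro n
    induction n with
    | zero => intro x hx; simpa using hx
    | succ n ih =>
      intro x hx
      apply ih
      apply h.sha
      rw [← two_nsmul, ← mul_smul, mul_comm, ← pow_succ]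
      exact hx
  have key2 : ∀ (n : ℕ) (x : Pool.Agent.TH841.NF.D.Sha (E27 k)), 2 ^ n • x = 0 →
      2 ^ 0 • x = 0 := by
    intro n x hx
    rw [key n x hx, smul_zero]
  have hfin : Finite (curve k).toAffine.Point := h.finite
  have : Fact (Nat.Prime 2) := ⟨Nat.prime_two⟩
  refine ⟨⟨isUnit_iff_ne_zero.2 ?_⟩, Pool.Agent.Y667.BKP.tensor_zero 2,
    Pool.Agent.Y667.BKP.h1f_zero Nat.prime_two h.finite 0 key2, Pool.Agent.U374.Cub.fermatDec k⟩
  have h1 : (curve k).Δ = -27 := by
    simp only [curve, WeierstrassCurve.Δ, WeierstrassCurve.b₂, WeierstrassCurve.b₄,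
      WeierstrassCurve.b₆, WeierstrassCurve.b₈]
    norm_num
  rw [h1]
  norm_num

end Pool.Agent.Results.MP_009fd8_ag.NonabelianFermatCubics
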