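import Mathlib
import Pool.Agent.U150.XG.ShaK

/-!
# The Abel–Jacobi map for `p = 2` of the successive prime twists of every member of the twist classes of
# the elliptic curves with a rational point of order two, over multiquadratic fields

Let `K = ℚ(√d : d ∈ S)` be any multiquadratic number field (`S` a finite set of nonzero integers, for example
`K = ℚ`), `M` the product of the elements of `S`, `E : y² = x³ + a x² + b x` with integers `a`, `b` such that neither
`b` nor `c = a² - 4 b` is a square, and `E_N : y² = x³ + a N x² + b N² x`. Let `R₀` be the sum of the Selmer ranks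
(descent by isogenies of degree two, over `ℚ`) of the twists of `E` by the products of the subsets of `S`; we
assume `R₀ = 0`. A prime is split if it is `1` modulo `8` and a nonzero square modulo all the odd primes dividing
`b c M`, and inert if it is odd, does not divide `M` and neither `b` nor `c` is a square modulo it (these are the
split and the inert primes of the twist of `E` by `M`, in the definitions of `MP_6073f3_nt.SuccessivePrimeTwists`,
which we use).

`D` is ANY (fixed) product of different split and inert primes. We twist `E_D` successively by primes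
`p_k, …, p_0` in given residue classes of split or inert primes, the last one inert (`N = D p_k ⋯ p_0`), and take
means over the primes `p_0` up to `X`, `X → ∞`, then over `p_1`, …, at last over `p_k`. Then for every `D`:

with iterated lower density at least `P(0)` both groups `E_N(K) ⊗ ℚ_2` and `H¹_f(K, V_2 E_N)` are zero, so that
the Abel–Jacobi map of `h¹(E_N)(1)` for `p = 2` over `K` is an isomorphism onto the Bloch–Kato Selmer group. Here
`P` is the law of the Markov chain `r → r - 1` with probability `1 - 2 ^ -r`, `r → r` and `r → r + 1` with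
probability `2 ^ -(r + 1)`, after `t` steps, `t` the number of the split primes among `p_1, …, p_k`, starting with
the law of the corank of the explicit matrix of `D` plus a random diagonal matrix over the field with two elements.
We have `P(0) ≥ 2 ^ -(n + t)`, `n` the number of the split primes of `D`, and `|P(0) - c_0| ≤
∏_{1 ≤ i ≤ n} (2 ^ i - 1) / 2 ^ t`, `c_0 = ∏ (1 - 2^{-(2i+1)}) = 0.4194…`.

`H1f 2 W` (`Pool.Agent.Y667.BKP.H1f`, by helper667) is the group of the classes of the continuous cocycles of the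
absolute Galois group with values in `V_2 W = T_2 W ⊗ ℚ_2` whose restriction to the completion at every place is in
the image of the Kummer map; this is the condition of Bloch and Kato.

Authors: helper150 (this file and `U150/XG`), helper79 (all the twists have one corank, ranks over multiquadratic
fields, `U79/MO`, `U79/TF`), helper80 (`Ш[2^∞]` over multiquadratic fields, `U80/GT/Sha`), helper667 (`Y667/BKP`),
helper860 (the statement for one member, `TwistsWithTwoIsogeny`), helper687 (the Markov chain of the symmetric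
matrices over the field with two elements, `U687/Q2`), helper115 and the other authors of the descent for the class
of the twists (projects GD and GE).
-/

set_option autoImplicit false

open scoped Classical ENNReal

open WeierstrassCurve

namespace Pool.Agent.Results.MP_009fd8_ag.PrimeTwistsTwoIsogeny

open Filter
open Pool.Agent.Y667.BKP (H1f)
open Pool.Agent.Results.MP_6073f3_nt.SuccessivePrimeTwists (Res Member Given lowerMean
  indicator split splitSteps chain c)
open Pool.Agent.Results.MP_81dc49_nt.RanksOverMultiquadraticFields (R₀)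

/-- the curve `E_N : y² = x³ + a N x² + b N² x` over `K` -/
def curve (a b : ℤ) (N : ℕ) (K : Type) [Field K] : WeierstrassCurve K :=
  { a₁ := 0, a₂ := ((a * N : ℤ) : K), a₃ := 0, a₄ := ((b * (N : ℤ) ^ 2 : ℤ) : K), a₆ := 0 }

/-- the first coefficient of the twist of `y² = x³ + a x² + b x` by the product of `S` -/
def A (a : ℤ) (S : Finset ℤ) : ℤ := a * ∏ d ∈ S, d

/-- the second coefficient of the twist of `y² = x³ + a x² + b x` by the product of `S` -/
def B (b : ℤ) (S : Finset ℤ) : ℤ := b * (∏ d ∈ S, d) ^ 2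

/-- `K` is the field generated by the square roots `r d` of the elements `d` of `S` -/
def Generates (S : Finset ℤ) (K : Type) [Field K] [NumberField K] (r : ℤ → K) : Prop :=
  (∀ d ∈ S, r d ^ 2 = (d : K)) ∧ IntermediateField.adjoin ℚ (r '' (S : Set ℤ)) = ⊤

/-- `W(K) ⊗ ℚ_2 = 0` and `H¹_f(K, V_2 W) = 0` -/
def BothZero (K : Type) [Field K] [NumberField K] (W : WeierstrassCurve K) : Prop :=
  W.IsElliptic ∧ (∀ x : TensorProduct ℤ W.toAffine.Point ℚ_[2], x = 0) ∧ ∀ x : H1f 2 W, x = 0

section proof

open Pool.Agent.Y682 (gc MP fg_MP gc_isT)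
open Pool.Agent.U115.GE (cork Class twE)
open Pool.Agent.TH841.NF.D (rk Sha)

theorem both_of (K : Type) [Field K] [NumberField K] (W : WeierstrassCurve K) (h : W.IsElliptic)
    [Finite W.toAffine.Point] {m : ℕ}
    (hs : ∀ (j : ℕ) (x : Sha W), 2 ^ j • x = 0 → 2 ^ m • x = 0) : BothZero K W := by
  have : Fact (Nat.Prime 2) := ⟨Nat.prime_two⟩
  exact ⟨h, Pool.Agent.Y667.BKP.tensor_zero 2,
    Pool.Agent.Y667.BKP.h1f_zero Nat.prime_two inferInstance m hs⟩

theorem fin_of_zero {a b : ℤ} (hb : b ≠ 0) (hc : a ^ 2 - 4 * b ≠ 0) {t : ℤ} (ht : t ≠ 0) (K : Type)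
    [Field K] [NumberField K] (h : Pool.Agent.U79.TF.RK a b K t = 0) :
    Finite (gc (a * t) (b * t ^ 2) K).toAffine.Point := by
  obtain ⟨g1, g2⟩ := Pool.Agent.U79.TF.gc_ne hb hc ht
  have h3 : Module.Finite ℤ (MP (gc (a * t) (b * t ^ 2) K)) := fg_MP (gc_isT g1 g2 K)
  have h4 : Module.finrank ℤ (MP (gc (a * t) (b * t ^ 2) K)) = 0 := h
  have h5 : Module.IsTorsion ℤ (MP (gc (a * t) (b * t ^ 2) K)) :=
    Module.finrank_eq_zero_iff_isTorsion.1 h4
  have h6 : Finite (MP (gc (a * t) (b * t ^ 2) K)) := Module.finite_of_fg_torsion _ h5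
  exact h6

theorem both_K {a b : ℤ} {S : Finset ℤ} (hS : ∀ d ∈ S, d ≠ 0) (hb : ¬ IsSquare b)
    (hc : ¬ IsSquare (a ^ 2 - 4 * b)) (hR : R₀ a b S = 0) {N : ℕ}
    (hN : Class (a * ∏ d ∈ S, d) (b * (∏ d ∈ S, d) ^ 2) N) (h0 : cork a b N = 0)
    (K : Type) [Field K] [NumberField K] (r : ℤ → K) (hr : Generates S K r) :
    BothZero K (curve a b N K) := by
  have hb0 : b ≠ 0 := by
    rintro rfl
    exact hb ⟨0, by norm_num⟩
  have hc0 : a ^ 2 - 4 * b ≠ 0 := by
    intro h
    exact hc ⟨0, by rw [h]; norm_num⟩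
  have hM : (∏ d ∈ S, d) ≠ 0 := Finset.prod_ne_zero_iff.2 hS
  have hNz : (N : ℤ) ≠ 0 := by exact_mod_cast hN.1.ne_zero
  have hg := Pool.Agent.U79.TF.gc_ne hb0 hc0 hNz
  have h1 := Pool.Agent.U79.MO.rank_K2 hb0 hc0 hS K r hr.1 hr.2 hN
  have h2 : ∑ T ∈ S.powerset, Pool.Agent.U79.TF.sr (a * ∏ q ∈ T, q) (b * (∏ q ∈ T, q) ^ 2) = 0 := hR
  rw [h2, h0, mul_zero, add_zero] at h1
  have h3 := fin_of_zero hb0 hc0 hNz K (Nat.eq_zero_of_le_zero h1)
  have h3' : Finite (curve a b N K).toAffine.Point := h3
  refine both_of K (curve a b N K) ⟨isUnit_iff_ne_zero.2 ?_⟩ (m := S.card) ?_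
  · have e : (curve a b N K).Δ =
        ((16 * (b * (N : ℤ) ^ 2) ^ 2 * ((a * N) ^ 2 - 4 * (b * (N : ℤ) ^ 2)) : ℤ) : K) := by
      simp only [curve, WeierstrassCurve.Δ, WeierstrassCurve.b₂, WeierstrassCurve.b₄,
        WeierstrassCurve.b₆, WeierstrassCurve.b₈]
      push_cast
      ring
    rw [e]
    exact_mod_cast mul_ne_zero (mul_ne_zero (by norm_num) (pow_ne_zero 2 hg.1)) hg.2
  · intro j x hx
    refine Pool.Agent.U150.XG.ShaK.sha_K hS (a * N) (b * (N : ℤ) ^ 2) (fun T hT => ?_) K r hr.1 hr.2
      j x hx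
    have hs0 : Pool.Agent.U79.TF.sr (a * ∏ q ∈ T, q) (b * (∏ q ∈ T, q) ^ 2) = 0 :=
      (Finset.sum_eq_zero_iff.1 h2) T (Finset.mem_powerset.2 hT)
    obtain ⟨-, -, -, u4⟩ := Pool.Agent.U79.MO.two_sided_m hb hc hM
      (Finset.prod_dvd_prod_of_subset T S _ hT) hN
    have h4 := ((u4 hs0).2 h0).2
    have e : gc (a * N * ∏ d ∈ T, d) (b * (N : ℤ) ^ 2 * (∏ d ∈ T, d) ^ 2) ℚ =
        twE (a * ∏ d ∈ T, d) (b * (∏ d ∈ T, d) ^ 2) N := by
      unfold gc twE Pool.Agent.Y682.wc
      ext
      · rfl
      · simp only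
        push_cast
        ring
      · rfl
      · simp only
        push_cast
        ring
      · rfl
    rw [e]
    intro y hy
    exact h4 1 y (by rw [pow_one]; exact hy)

end proof

/-- **The Abel–Jacobi map for `p = 2` of the successive prime twists over multiquadratic fields.** -/
theorem result (S : Finset ℤ) (hS : ∀ d ∈ S, d ≠ 0) (a b : ℤ) (hb : ¬ IsSquare b)
    (hc : ¬ IsSquare (a ^ 2 - 4 * b)) (hR : R₀ a b S = 0) (q : ℕ → ℕ)
    (hq : Given (A a S) (B b S) q) :
    (∀ (k D : ℕ), Member (A a S) (B b S) D →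
      Res (A a S) (B b S) (D * ∏ i ∈ Finset.range (k + 1), q i) →
      ENNReal.ofReal (chain (A a S) (B b S) q k D 0) ≤
        lowerMean (A a S) (B b S) q (indicator fun N => ∀ (K : Type) [Field K] [NumberField K]
          (r : ℤ → K), Generates S K r → BothZero K (curve a b N K)) (k + 1) D ∧
      (1 / 2 : ℝ) ^ ((split (A a S) (B b S) D).card + splitSteps (A a S) (B b S) q k) ≤
        chain (A a S) (B b S) q k D 0 ∧
      |chain (A a S) (B b S) q k D 0 - c 0| ≤
        (∏ i ∈ Finset.range (split (A a S) (B b S) D).card, ((2 : ℝ) ^ (i + 1) - 1)) /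
          2 ^ splitSteps (A a S) (B b S) q k) ∧
    0.4194 < c 0 ∧ c 0 < 0.4195 := by
  have hM : (∏ d ∈ S, d) ≠ 0 := Finset.prod_ne_zero_iff.2 hS
  have hb' : ¬ IsSquare (B b S) := Pool.Agent.U150.XG.Mq.ns_b hb hM
  have hc' : ¬ IsSquare ((A a S) ^ 2 - 4 * B b S) := Pool.Agent.U150.XG.Mq.ns_c hc hM
  obtain ⟨g1, -, -, l1, l2, -⟩ :=
    Pool.Agent.Results.MP_6073f3_nt.SuccessivePrimeTwists.result (A a S) (B b S) hb' hc' q hq
  refine ⟨fun k D hD hR' => ⟨?_, (g1 k D hD hR').2.2.2.1, ?_⟩, l1, l2⟩
  · have h1 := Pool.Agent.U150.XG.Mq.low_sum hb' hc' hq (fun N => ∀ (K : Type) [Field K]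
      [NumberField K] (r : ℤ → K), Generates S K r → BothZero K (curve a b N K)) 0
      (fun N hN hj K _ _ r hr => by
        have h5 : Pool.Agent.U115.GE.cork (A a S) (B b S) N = Pool.Agent.U115.GE.cork a b N :=
          (Pool.Agent.U150.XG.Mq.bd (S := S) hb hc hS hN).1
        rw [h5] at hj
        exact both_K hS hb hc hR hN (Nat.eq_zero_of_le_zero hj) K r hr) k hD hR'
    rwa [zero_add, Finset.sum_range_one] at h1
  · have h6 := (g1 k D hD hR').2.2.2.2 1
    rwa [Finset.sum_range_one, Finset.sum_range_one] at h6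

end Pool.Agent.Results.MP_009fd8_ag.PrimeTwistsTwoIsogeny
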