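import Pool.Agent.U860.DT.Mem
import Pool.Agent.U80.GT.Ex
import Pool.Agent.Y667.BKP.Main

/-!
# The Bloch–Kato Selmer group for `p = 2` of the twists of the elliptic curves with a point of order two,
# over infinite towers

Let `E : y² = x³ + a x² + b x` with integers `a`, `b` such that neither `b` nor `c = a² - 4 b` is a square,
and let `E_D : y² = x³ + a D x² + b D² x`.  `(a, b, D)` is called a member if `D` is squarefree and prime to
`2 b c` and if the product of the orders of the Selmer groups of the isogeny of degree two of `E_D` and of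
its dual has its smallest possible value four.  `K_∞(D)` is the field generated by the square roots of the
tower primes of `E_D` (helper80).

**Theorem.** Let `(a, b, D)` be a member and let `K` be any number field contained in `K_∞(D)`, for
instance `K = ℚ`.  Then `E_D(K) ⊗ ℚ_2 = 0` and `H¹_f(K, V_2 E_D) = 0`.  So the Abel–Jacobi map
`E_D(K) ⊗ ℚ_2 → H¹_f(K, V_2 E_D)` of the polarized motive `h¹(E_D)(1)` is an isomorphism for `p = 2`; the
same is true for `h¹(A)(1)` for all abelian varieties `A` over `K` which are isogenous to products of members,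
as `V_2 A` is the direct sum of the `V_2 E_D` (not formalized).

If `(a, b, D)` is a member then so is `(a, b, D M)` for all products `M` of different tower primes of
`E_D`.  If `(a, b, 1)` is a member, then exactly the proportion `∏_{i ≥ 0} (1 - 2^{-(2i+1)}) = 0.4194...` of
the numbers `D` of a class with at least `c X / log X` elements up to `X` are members (theorem of the
projects GD, GE of helper115 and others).  If `E` has the right neutral primes, then `K_∞(D)` has infinite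
degree.  An example for both is `a = b = 7`.

`H1f 2 W` (`Pool.Agent.Y667.BKP.H1f`, by helper667) is the group of the classes of the continuous
cocycles of the absolute Galois group with values in `V_2 W = T_2 W ⊗ ℚ_2` whose restriction to the
completion at every place is in the image of the Kummer map; this is the condition of Bloch and Kato.
-/

set_option autoImplicit false

open scoped Classical

open WeierstrassCurve NumberField

namespace Pool.Agent.Results.MP_009fd8_ag.TwistsWithTwoIsogeny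

open Pool.Agent.Y667.BKP (H1f)

/-- the curve `E_D : y² = x³ + a D x² + b D² x` over `K` -/
def curve (a b : ℤ) (D : ℕ) (K : Type) [Field K] : WeierstrassCurve K :=
  { a₁ := 0, a₂ := ((a * D : ℤ) : K), a₃ := 0, a₄ := ((b * (D : ℤ) ^ 2 : ℤ) : K), a₆ := 0 }

/-- the quartic of `d` has a nontrivial point over `L` -/
def Quartic (L : Type) [Field L] (a b d : ℤ) : Prop :=
  ∃ N M e : L, (M ≠ 0 ∨ e ≠ 0) ∧
    N ^ 2 = (d : L) * M ^ 4 + (a : L) * M ^ 2 * e ^ 2 + (b : L) / (d : L) * e ^ 4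

/-- the Selmer group of the isogeny of degree two of `y² = x³ + a x² + b x` -/
def Sel (a b : ℤ) : Set ℤ :=
  {d | Squarefree d ∧ Quartic ℝ a b d ∧ ∀ (p : ℕ) [Fact p.Prime], Quartic ℚ_[p] a b d}

/-- the members: neither `b` nor `a² - 4b` is a square, `D` is squarefree and prime to `2 b (a² - 4b)`, and
the Selmer groups of `E_D` are minimal -/
def Member (a b : ℤ) (D : ℕ) : Prop :=
  (¬ IsSquare b ∧ ¬ IsSquare (a ^ 2 - 4 * b)) ∧
    (Squarefree D ∧ ∀ p ∈ D.primeFactors, p ≠ 2 ∧ ¬ (p : ℤ) ∣ b * (a ^ 2 - 4 * b)) ∧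
    (Sel (a * D) (b * (D : ℤ) ^ 2)).ncard *
      (Sel (-2 * (a * D)) ((a * D) ^ 2 - 4 * (b * (D : ℤ) ^ 2))).ncard = 4

/-- the neutral primes -/
def Neutral (a b : ℤ) (p : ℕ) : Prop :=
  ((p : ℤ) ∣ a ∧ (p : ℤ) ∣ b ∧ ¬ (p : ℤ) ^ 2 ∣ b) ∨
    (¬ (p : ℤ) ∣ a ∧ Odd (padicValInt p (b * (a ^ 2 - 4 * b))))

/-- the tower primes of `E_D` -/
def TowerPrime (a b : ℤ) (D q : ℕ) : Prop :=
  q.Prime ∧ q % 8 = 1 ∧ ¬ q ∣ D ∧ ¬ IsSquare (b : ZMod q) ∧
    ¬ IsSquare ((a ^ 2 - 4 * b : ℤ) : ZMod q) ∧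
    (∀ p : ℕ, p.Prime → p ≠ 2 → (p : ℤ) ∣ b * (a ^ 2 - 4 * b) →
      Neutral a b p ∨ IsSquare (q : ZMod p)) ∧
    ∀ p ∈ D.primeFactors, IsSquare (q : ZMod p) ∨
      (¬ IsSquare (b : ZMod p) ∧ ¬ IsSquare ((a ^ 2 - 4 * b : ℤ) : ZMod p))

/-- the field generated by the square roots of the tower primes -/
noncomputable def Tower (a b : ℤ) (D : ℕ) : IntermediateField ℚ ℂ :=
  IntermediateField.adjoin ℚ {z : ℂ | ∃ q : ℕ, TowerPrime a b D q ∧ z ^ 2 = (q : ℂ)}

/-- there are neutral primes for `b` and for `a² - 4b` -/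
def HasNeutral (a b : ℤ) : Prop :=
  (∃ p : ℕ, p.Prime ∧ p ≠ 2 ∧ (p : ℤ) ∣ a ∧ (p : ℤ) ∣ b ∧ ¬ (p : ℤ) ^ 2 ∣ b) ∨
    ((∃ p : ℕ, p.Prime ∧ p ≠ 2 ∧ ¬ (p : ℤ) ∣ a ∧ Odd (padicValInt p b)) ∧
      ∃ p : ℕ, p.Prime ∧ p ≠ 2 ∧ ¬ (p : ℤ) ∣ a ∧ Odd (padicValInt p (a ^ 2 - 4 * b)))

/-- `1` modulo `8` and a nonzero square modulo the odd primes dividing `b (a² - 4b)` -/
def Res (a b : ℤ) (n : ℕ) : Prop := n % 8 = 1 ∧ ∀ l : ℕ, l.Prime → l ≠ 2 →
  (l : ℤ) ∣ b * (a ^ 2 - 4 * b) → ¬ l ∣ n ∧ IsSquare (n : ZMod l)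

/-- the class: the prime factors are split or inert -/
def Class (a b : ℤ) (D : ℕ) : Prop := Squarefree D ∧ Res a b D ∧
  ∀ p ∈ D.primeFactors, Res a b p ∨
    (p ≠ 2 ∧ ¬ IsSquare (b : ZMod p) ∧ ¬ IsSquare ((a ^ 2 - 4 * b : ℤ) : ZMod p))

/-- `W(K) ⊗ ℚ_2 = 0` and `H¹_f(K, V_2 W) = 0` -/
def BothZero (K : Type) [Field K] [NumberField K] (W : WeierstrassCurve K) : Prop :=
  W.IsElliptic ∧ (∀ x : TensorProduct ℤ W.toAffine.Point ℚ_[2], x = 0) ∧ ∀ x : H1f 2 W, x = 0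

section proof

open Pool.Agent.U80.GT
open Pool.Agent.Y682 (gc)

lemma class_iff (a b : ℤ) (D : ℕ) : Class a b D ↔ Pool.Agent.U115.GE.Class a b D := by
  refine and_congr_right fun _ => and_congr_right fun _ => forall₂_congr fun p hp => ?_
  have hpp := Nat.prime_of_mem_primeFactors hp
  exact or_congr ⟨fun h => ⟨hpp, h⟩, fun h => h.2⟩ ⟨fun h => ⟨hpp, h⟩, fun h => h.2⟩

lemma nn_def (a b : ℤ) : NN a b = (Sel a b).ncard * (Sel (-2 * a) (a ^ 2 - 4 * b)).ncard :=
  Pool.Agent.U860.DT.nn_eq a b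

lemma mem_iff (a b : ℤ) (D : ℕ) : Member a b D ↔ (¬ IsSquare b ∧ ¬ IsSquare (a ^ 2 - 4 * b)) ∧
    Dn a b D ∧ NN (a * D) (b * (D : ℤ) ^ 2) = 4 := by
  rw [nn_def]
  exact Iff.rfl

lemma both_of (K : Type) [Field K] [NumberField K] (W : WeierstrassCurve K) (h : W.IsElliptic)
    [Finite W.toAffine.Point] {m : ℕ}
    (hs : ∀ (j : ℕ) (x : Pool.Agent.TH841.NF.D.Sha W), 2 ^ j • x = 0 → 2 ^ m • x = 0) :
    BothZero K W := by
  have : Fact (Nat.Prime 2) := ⟨Nat.prime_two⟩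
  exact ⟨h, Pool.Agent.Y667.BKP.tensor_zero 2,
    Pool.Agent.Y667.BKP.h1f_zero Nat.prime_two inferInstance m hs⟩

theorem zero_of (a b : ℤ) (D : ℕ) (h : Member a b D) (K : IntermediateField ℚ ℂ)
    (hK : K ≤ Tower a b D) [hN : NumberField K] : BothZero K (curve a b D K) := by
  obtain ⟨⟨h1, h2⟩, h3, h4⟩ := (mem_iff _ _ _).1 h
  have hb := Pool.Agent.U860.DS.b_ne h1
  have hc := Pool.Agent.U860.DS.c_ne h2
  obtain ⟨m, hm, hf, hs⟩ := Pool.Agent.U860.DT.over_tower hb hc h3 h4 K hK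
  have hf' : Finite (curve a b D K).toAffine.Point := hf
  have hDz : (D : ℤ) ≠ 0 := by exact_mod_cast h3.1.ne_zero
  have hg := g_ne hb hc hDz
  refine both_of K (curve a b D K) ⟨isUnit_iff_ne_zero.2 ?_⟩ hs
  have e : (curve a b D K).Δ =
      ((16 * (b * (D : ℤ) ^ 2) ^ 2 * ((a * D) ^ 2 - 4 * (b * (D : ℤ) ^ 2)) : ℤ) : K) := by
    simp only [curve, WeierstrassCurve.Δ, WeierstrassCurve.b₂, WeierstrassCurve.b₄,
      WeierstrassCurve.b₆, WeierstrassCurve.b₈]
    push_cast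
    ring
  rw [e]
  exact_mod_cast mul_ne_zero (mul_ne_zero (by norm_num) (pow_ne_zero 2 hg.1)) hg.2

theorem dens_mem {a b : ℤ} (h : Member a b 1) : Filter.Tendsto (fun X : ℕ =>
      (((Finset.Icc 1 X).filter fun D => Class a b D ∧ Member a b D).card : ℝ) /
        (((Finset.Icc 1 X).filter fun D => Class a b D).card : ℝ)) Filter.atTop
      (nhds (∏' i : ℕ, (1 - (1 / 2 : ℝ) ^ (2 * i + 1)))) := by
  obtain ⟨⟨nb, nc⟩, -, h4⟩ := (mem_iff _ _ _).1 h
  have hb := Pool.Agent.U860.DS.b_ne nb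
  have hc := Pool.Agent.U860.DS.c_ne nc
  have h4' : NN a b = 4 := by
    have e1 : a * ((1 : ℕ) : ℤ) = a := by norm_num
    have e2 : b * (((1 : ℕ) : ℤ)) ^ 2 = b := by norm_num
    rw [e1, e2] at h4
    exact h4
  have h0 : SR a b = 0 := (Pool.Agent.U860.DT.sr_iff hb hc).2 h4'
  refine (den nb nc).congr fun X => congrArg₂ (fun a b : ℕ => (a : ℝ) / (b : ℝ)) ?_ ?_
  · refine congrArg Finset.card (Finset.filter_congr fun D _ => ?_)
    constructor
    · rintro ⟨h1, h2⟩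
      obtain ⟨h3, h5⟩ := (class_cl nb nc D).1 h1
      have hDn := dn_of_class hb hc h3 h5
      have hDz : (D : ℤ) ≠ 0 := by exact_mod_cast hDn.1.ne_zero
      have hg := g_ne hb hc hDz
      exact ⟨(class_iff a b D).2 h1, (mem_iff _ _ _).2 ⟨⟨nb, nc⟩, hDn,
        (Pool.Agent.U860.DT.sr_iff hg.1 hg.2).1 (h2.trans h0)⟩⟩
    · rintro ⟨h1, h2⟩
      obtain ⟨-, hDn, h3⟩ := (mem_iff _ _ _).1 h2
      have hDz : (D : ℤ) ≠ 0 := by exact_mod_cast hDn.1.ne_zero
      have hg := g_ne hb hc hDz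
      exact ⟨(class_iff a b D).1 h1,
        ((Pool.Agent.U860.DT.sr_iff hg.1 hg.2).2 h3).trans h0.symm⟩
  · exact congrArg Finset.card (Finset.filter_congr fun D _ => (class_iff a b D).symm)

end proof

/-- **The Bloch–Kato Selmer groups of the members over their towers.** -/
theorem result :
    (∀ (a b : ℤ) (D : ℕ), Member a b D → ∀ K : IntermediateField ℚ ℂ, K ≤ Tower a b D →
      FiniteDimensional ℚ K → ∃ _ : NumberField K, BothZero K (curve a b D K)) ∧
    -- twists by tower primes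
    (∀ (a b : ℤ) (D : ℕ) (U : Finset ℕ), Member a b D → (∀ q ∈ U, TowerPrime a b D q) →
      Member a b (D * ∏ q ∈ U, q)) ∧
    -- the degree of the tower
    (∀ (a b : ℤ) (D : ℕ), Member a b D → HasNeutral a b →
      ¬ FiniteDimensional ℚ (Tower a b D : IntermediateField ℚ ℂ)) ∧
    -- the number of the members
    (∀ a b : ℤ, Member a b 1 →
      (∃ (c : ℝ) (X₀ : ℕ), 0 < c ∧ ∀ X : ℕ, X₀ ≤ X →
        c * X / Real.log X ≤ (((Finset.Icc 1 X).filter fun D => Class a b D).card : ℝ)) ∧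
      Filter.Tendsto (fun X : ℕ =>
        (((Finset.Icc 1 X).filter fun D => Class a b D ∧ Member a b D).card : ℝ) /
          (((Finset.Icc 1 X).filter fun D => Class a b D).card : ℝ)) Filter.atTop
        (nhds (∏' i : ℕ, (1 - (1 / 2 : ℝ) ^ (2 * i + 1))))) ∧
    0.4194 < ∏' i : ℕ, (1 - (1 / 2 : ℝ) ^ (2 * i + 1)) ∧
    ∏' i : ℕ, (1 - (1 / 2 : ℝ) ^ (2 * i + 1)) < 0.4195 ∧
    Member 7 7 1 ∧ HasNeutral 7 7 := by
  obtain ⟨-, -, -, c1, c2⟩ := Pool.Agent.Y948.CQ.t_C2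
  refine ⟨fun a b D h K hK hfd => ?_, fun a b D U h hU => ?_, fun a b D h hneu => ?_,
    fun a b h => ⟨?_, dens_mem h⟩, c1, c2, ?_,
    Or.inl ⟨7, by norm_num, by norm_num, by norm_num, by norm_num, by norm_num⟩⟩
  · have hN : NumberField K := { to_charZero := inferInstance, to_finiteDimensional := hfd }
    exact ⟨hN, zero_of a b D h K hK⟩
  · obtain ⟨⟨nb, nc⟩, hD, h4⟩ := (mem_iff _ _ _).1 h
    obtain ⟨h1, h2⟩ := Pool.Agent.U860.DT.mem_mul (Pool.Agent.U860.DS.b_ne nb)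
      (Pool.Agent.U860.DS.c_ne nc) hD hU
    exact (mem_iff _ _ _).2 ⟨⟨nb, nc⟩, h1, h2.trans h4⟩
  · obtain ⟨⟨nb, nc⟩, hD, -⟩ := (mem_iff _ _ _).1 h
    exact Pool.Agent.U80.GT.TF_inf (Pool.Agent.U80.GT.tp_inf (Pool.Agent.U860.DS.b_ne nb) (Pool.Agent.U860.DS.c_ne nc) hD hneu)
  · obtain ⟨⟨nb, nc⟩, -, -⟩ := h
    obtain ⟨c, X₀, hc, h⟩ := Pool.Agent.U860.DS.low nb nc
    refine ⟨c, X₀, hc, fun X hX => ?_⟩
    have h1 : ((Finset.Icc 1 X).filter fun D => Class a b D) =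
        (Finset.Icc 1 X).filter fun D => Pool.Agent.U115.GE.Class a b D :=
      Finset.filter_congr fun D _ => class_iff a b D
    rw [h1]
    exact h X hX
  · refine (mem_iff _ _ _).2 ⟨⟨?_, ?_⟩, ⟨squarefree_one, fun p hp => by simp at hp⟩, ?_⟩
    · rintro ⟨r, hr⟩
      have h1 : r.natAbs * r.natAbs = 7 := by
        have := congrArg Int.natAbs hr
        rw [Int.natAbs_mul] at this
        exact this.symm
      have h2 : r.natAbs ≤ 2 := by nlinarith
      interval_cases r.natAbs <;> omega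
    · rintro ⟨r, hr⟩
      have h1 : r.natAbs * r.natAbs = 21 := by
        have := congrArg Int.natAbs hr
        rw [Int.natAbs_mul] at this
        exact this.symm
      have h2 : r.natAbs ≤ 4 := by nlinarith
      interval_cases r.natAbs <;> omega
    · have e1 : (7 : ℤ) * ((1 : ℕ) : ℤ) = 7 := by norm_num
      have e2 : (7 : ℤ) * (((1 : ℕ) : ℤ)) ^ 2 = 7 := by norm_num
      rw [e1, e2]
      exact Pool.Agent.U80.GT.nn77

end Pool.Agent.Results.MP_009fd8_ag.TwistsWithTwoIsogeny
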